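import Pool.Agent.helper81.EP.SpecO

/-!
# Project ep (MP_ebc808_nt): row OT
-/

set_option autoImplicit false

open Finset
open scoped Real

noncomputable section

namespace Pool.Agent.EP

/-- `LBO` is monotone in the exponent. -/
theorem OT_mono {a b : ℝ} (hab : a ≤ b) (hb : LBO b) : LBO a := by
  intro η hη
  obtain ⟨y₀, hy₀⟩ := hb η hη
  refine ⟨max y₀ 1, fun y hy => ?_⟩
  have h1 : (1 : ℝ) ≤ (y : ℝ) := by
    have : 1 ≤ y := le_trans (le_max_right _ _) hy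
    exact_mod_cast this
  have h2 := hy₀ y (le_trans (le_max_left _ _) hy)
  refine le_trans (Real.rpow_le_rpow_of_exponent_le h1 ?_) h2
  linarith

/-- `LBO` is closed under suprema. -/
theorem OT_sup {B : Set ℝ} (hne : B.Nonempty) (hB : ∀ β ∈ B, LBO β) : LBO (sSup B) := by
  intro η hη
  obtain ⟨β, hβB, hβ⟩ := exists_lt_of_lt_csSup hne (show sSup B - η / 2 < sSup B by linarith)
  obtain ⟨y₀, hy₀⟩ := hB β hβB (η / 2) (by linarith)
  refine ⟨max y₀ 1, fun y hy => ?_⟩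
  have h1 : (1 : ℝ) ≤ (y : ℝ) := by
    have : 1 ≤ y := le_trans (le_max_right _ _) hy
    exact_mod_cast this
  have h2 := hy₀ y (le_trans (le_max_left _ _) hy)
  refine le_trans (Real.rpow_le_rpow_of_exponent_le h1 ?_) h2
  linarith

/-- The base case. -/
theorem OT_zero : LBO 0 := by
  intro η hη
  refine ⟨1, fun y hy => ?_⟩
  have h1 : (1 : ℝ) ≤ (y : ℝ) := by exact_mod_cast hy
  have h2 : (y : ℝ) ^ ((0 : ℝ) - η) ≤ 1 := by
    apply Real.rpow_le_one_of_one_le_of_nonpos h1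
    linarith
  have h3 : 1 ≤ sO y := by
    unfold sO
    rw [Nat.one_le_iff_ne_zero, Finset.card_ne_zero]
    refine ⟨0, ?_⟩
    rw [Finset.mem_filter]
    refine ⟨by simp, ?_⟩
    rw [Fintype.card_unique]
    exact odd_one
  have h4 : (1 : ℝ) ≤ (sO y : ℝ) := by exact_mod_cast h3
  linarith

theorem OT (hOS : OS_stmt) : OT_stmt := by
  unfold OT_stmt
  set B : Set ℝ := {β : ℝ | 0 ≤ β ∧ β ≤ 2 / 3 ∧ LBO β} with hBdef
  have h0 : (0 : ℝ) ∈ B := ⟨le_refl _, by norm_num, OT_zero⟩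
  have hne : B.Nonempty := ⟨0, h0⟩
  have hbdd : BddAbove B := ⟨2 / 3, fun β hβ => hβ.2.1⟩
  have hL : LBO (sSup B) := OT_sup hne (fun β hβ => hβ.2.2)
  have hg0 : 0 ≤ sSup B := le_csSup hbdd h0
  have hg1 : sSup B ≤ 2 / 3 := csSup_le hne (fun β hβ => hβ.2.1)
  set γ : ℝ := sSup B with hγ
  have h54 : (0 : ℝ) < 5 / 4 + γ := by linarith
  have hL' : LBO ((1 / 2 + γ) / (5 / 4 + γ)) := hOS γ hg0 hg1 hL
  have hmem : (1 / 2 + γ) / (5 / 4 + γ) ∈ B := by
    refine ⟨by positivity, ?_, hL'⟩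
    rw [div_le_iff₀ h54]
    linarith
  have hle : (1 / 2 + γ) / (5 / 4 + γ) ≤ γ := le_csSup hbdd hmem
  rw [div_le_iff₀ h54] at hle
  have hs : Real.sqrt 33 ^ 2 = 33 := Real.sq_sqrt (by norm_num)
  have hs0 : 0 ≤ Real.sqrt 33 := Real.sqrt_nonneg _
  have hθ : (Real.sqrt 33 - 1) / 8 ≤ γ := by
    by_contra hcon
    push Not at hcon
    nlinarith
  exact OT_mono hθ hL

end Pool.Agent.EP
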